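import Pool.Agent.Lib.MP_0e3b4a_gt.Iface

set_option autoImplicit false

/-! # Module DROP: second order openness -/

namespace Pool.Agent.CutLoci.H28

open MeasureTheory Set Filter Topology

theorem drop : DropStatement := by
  intro H _ _ _ E _ _ _ F u B G hG hF v hv huv hsurj
  have hcE : CompleteSpace E := FiniteDimensional.complete ℝ E
  set K : Submodule ℝ H := LinearMap.ker (B : H →ₗ[ℝ] E) with hK
  have hcK : CompleteSpace K := (B.isClosed_ker).completeSpace_coe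
  have hBK : ∀ k : K, B (k : H) = 0 := fun k => k.2
  -- the derivative of `G`
  set G' : ℝ × H →L[ℝ] E := fderiv ℝ G (0, v) with hG'
  have hGd : HasStrictFDerivAt G G' (0, v) := hG.contDiffAt.hasStrictFDerivAt one_ne_zero
  have hGx : ∀ k : H, fderiv ℝ (fun x => G (0, x)) v k = G' (0, k) := by
    intro k
    have h1 : HasFDerivAt (fun x : H => ((0 : ℝ), x)) (ContinuousLinearMap.inr ℝ ℝ H) v :=
      (hasFDerivAt_const (0 : ℝ) v).prodMk (hasFDerivAt_id v)
    have h2 : HasFDerivAt (fun x : H => G (0, x)) (G'.comp (ContinuousLinearMap.inr ℝ ℝ H)) v :=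
      hGd.hasFDerivAt.comp v h1
    rw [h2.fderiv]
    rfl
  -- the inner map
  let ι : ℝ × (K × H) →L[ℝ] ℝ × H := (ContinuousLinearMap.fst ℝ ℝ (K × H)).prod
    (K.subtypeL.comp ((ContinuousLinearMap.fst ℝ K H).comp
      (ContinuousLinearMap.snd ℝ ℝ (K × H))))
  have hq : HasStrictFDerivAt
      (fun z : ℝ × (K × H) => (z.1, v + (z.2.1 : H) + z.1 • z.2.2)) ι 0 := by
    have h1 : HasStrictFDerivAt (fun z : ℝ × (K × H) => z.1)
        (ContinuousLinearMap.fst ℝ ℝ (K × H)) 0 := hasStrictFDerivAt_fst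
    have h2 : HasStrictFDerivAt (fun z : ℝ × (K × H) => (z.2.1 : H))
        (K.subtypeL.comp ((ContinuousLinearMap.fst ℝ K H).comp
          (ContinuousLinearMap.snd ℝ ℝ (K × H)))) 0 :=
      (K.subtypeL.comp ((ContinuousLinearMap.fst ℝ K H).comp
          (ContinuousLinearMap.snd ℝ ℝ (K × H)))).hasStrictFDerivAt
    have h3 : HasStrictFDerivAt (fun z : ℝ × (K × H) => z.2.2)
        ((ContinuousLinearMap.snd ℝ K H).comp (ContinuousLinearMap.snd ℝ ℝ (K × H))) 0 :=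
      ((ContinuousLinearMap.snd ℝ K H).comp
        (ContinuousLinearMap.snd ℝ ℝ (K × H))).hasStrictFDerivAt
    have h4 := h1.smul h3
    refine h1.prodMk ?_
    have h5 := (h2.const_add v).add h4
    convert h5 using 1
    ext z
    · simp
    · simp
  set q : ℝ × (K × H) → ℝ × H := fun z => (z.1, v + (z.2.1 : H) + z.1 • z.2.2) with hqdef
  have hq0 : q 0 = (0, v) := by simp [hqdef]
  have hGq : HasStrictFDerivAt (fun z => G (q z)) (G'.comp ι) 0 := by
    have : HasStrictFDerivAt G G' (q 0) := by rw [hq0]; exact hGd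
    exact this.comp (0 : ℝ × (K × H)) hq
  let β : ℝ × (K × H) →L[ℝ] E :=
    B.comp ((ContinuousLinearMap.snd ℝ K H).comp (ContinuousLinearMap.snd ℝ ℝ (K × H)))
  have hΨ : HasStrictFDerivAt (fun z : ℝ × (K × H) => (z.1, G (q z) + B z.2.2))
      ((ContinuousLinearMap.fst ℝ ℝ (K × H)).prod (G'.comp ι + β)) 0 := by
    refine hasStrictFDerivAt_fst.prodMk (hGq.add ?_)
    exact β.hasStrictFDerivAt
  have hrange : ((ContinuousLinearMap.fst ℝ ℝ (K × H)).prod (G'.comp ι + β)).range = ⊤ := by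
    rw [LinearMap.range_eq_top]
    rintro ⟨a, e⟩
    obtain ⟨k, h, hk, hkh⟩ := hsurj (e - G' (a, 0))
    refine ⟨(a, (⟨k, hk⟩, h)), ?_⟩
    rw [hGx] at hkh
    have h1 : G' (a, k) = G' (a, 0) + G' (0, k) := by
      rw [← map_add]; simp
    show ((a : ℝ), G' (a, k) + B h) = (a, e)
    rw [h1, add_assoc, hkh]
    simp
  have hmap := hΨ.map_nhds_eq_of_surj hrange
  -- the energy
  set Θ : ℝ × (K × H) → ℝ := fun z =>
    inner ℝ u (v + (z.2.1 : H) + z.1 • z.2.2) +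
      z.1 * ‖v + (z.2.1 : H) + z.1 • z.2.2‖ ^ 2 / 2 with hΘ
  have hΘc : Continuous Θ := by
    have h1 : Continuous fun z : ℝ × (K × H) => v + (z.2.1 : H) + z.1 • z.2.2 := by fun_prop
    exact (continuous_const.inner h1).add (((continuous_fst.mul (h1.norm.pow 2))).div_const 2)
  have hΘ0 : Θ 0 = inner ℝ u v := by simp [hΘ]
  have hU : {z : ℝ × (K × H) | Θ z < inner ℝ u v / 2} ∈ 𝓝 (0 : ℝ × (K × H)) := by
    apply hΘc.continuousAt.eventually_lt_const
    rw [hΘ0]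
    linarith
  have himg : (fun z : ℝ × (K × H) => (z.1, G (q z) + B z.2.2)) ''
      {z | Θ z < inner ℝ u v / 2} ∈ 𝓝 ((0 : ℝ), G (0, v)) := by
    have h1 : (0, G (0, v)) = (fun z : ℝ × (K × H) => (z.1, G (q z) + B z.2.2)) 0 := by
      simp [hq0]
    rw [h1, ← hmap]
    exact image_mem_map hU
  rw [nhds_prod_eq] at himg
  obtain ⟨I, hI, O', hO', hsub⟩ := mem_prod_iff.1 himg
  obtain ⟨O, hOO, hO, hOv⟩ := mem_nhds_iff.1 hO'
  obtain ⟨δ0, hδ0, hball⟩ := Metric.mem_nhds_iff.1 hI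
  refine ⟨O, -(inner ℝ u v / 2), δ0 ^ 2, hO, ⟨_, hOv⟩, by linarith, by positivity, ?_⟩
  intro ξ hξ s hs
  have hδ : 0 < Real.sqrt s := Real.sqrt_pos.2 hs.1
  have hδ1 : Real.sqrt s < δ0 := by
    rw [Real.sqrt_lt' hδ0]; exact hs.2
  have hmem : (Real.sqrt s, ξ) ∈ I ×ˢ O' := by
    refine ⟨hball ?_, hOO hξ⟩
    rw [Metric.mem_ball, dist_zero_right, Real.norm_eq_abs, abs_of_pos hδ]
    exact hδ1
  obtain ⟨⟨δ, k, h⟩, hz, heq⟩ := hsub hmem
  have hd : δ = Real.sqrt s := congrArg Prod.fst heq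
  have hx : G (δ, v + (k : H) + δ • h) + B h = ξ := congrArg Prod.snd heq
  refine ⟨u + δ • (v + (k : H) + δ • h), ?_, ?_⟩
  · rw [hF, map_add, map_add, hv, hBK, map_smul, zero_add, zero_add, add_assoc, smul_smul,
      ← pow_two, ← smul_add, add_comm (B h), hx, hd, Real.sq_sqrt hs.1.le]
  · have h1 : ‖u + δ • (v + (k : H) + δ • h)‖ ^ 2 = ‖u‖ ^ 2 + 2 * (δ *
        inner ℝ u (v + (k : H) + δ • h)) + δ ^ 2 * ‖v + (k : H) + δ • h‖ ^ 2 := by
      rw [norm_add_sq_real, inner_smul_right, norm_smul, mul_pow, Real.norm_eq_abs, sq_abs]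
    have h2 : Θ (δ, (k, h)) < inner ℝ u v / 2 := hz
    rw [← hd] at hδ ⊢
    have h3 : δ * Θ (δ, (k, h)) ≤ δ * (inner ℝ u v / 2) :=
      mul_le_mul_of_nonneg_left h2.le hδ.le
    have h4 : Θ (δ, (k, h)) = inner ℝ u (v + (k : H) + δ • h) +
      δ * ‖v + (k : H) + δ • h‖ ^ 2 / 2 := rfl
    rw [h1]
    rw [h4] at h3
    nlinarith [h3]

end Pool.Agent.CutLoci.H28
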