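import Pool.Agent.Lib.MP_0e3b4a_gt.Iface

set_option autoImplicit false

/-! # Module SUPG: supergradients at regular points -/

namespace Pool.Agent.CutLoci.H28

open MeasureTheory Set Filter Topology

theorem supg : SupgStatement := by
  intro H _ _ _ E _ _ _ F u B p hF hB hp ξ ε hε
  have : CompleteSpace E := FiniteDimensional.complete ℝ E
  obtain ⟨M, hM⟩ := B.exists_rightInverse_of_surjective (LinearMap.range_eq_top.2 hB)
  have hMx : ∀ y, B (M y) = y := fun y => by
    have := congrArg (fun T : E →L[ℝ] E => T y) hM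
    simpa using this
  -- the map `y ↦ F (u + M y)`
  set φ : E → E := fun y => F (u + M y) with hφ
  have hφ' : HasStrictFDerivAt φ ((ContinuousLinearEquiv.refl ℝ E : E ≃L[ℝ] E) : E →L[ℝ] E) 0 := by
    have h1 : HasStrictFDerivAt (fun y : E => u + M y) M 0 :=
      M.hasStrictFDerivAt.const_add u
    have h2 : HasStrictFDerivAt F B (u + M 0) := by rw [map_zero, add_zero]; exact hF
    have h3 := h2.comp (0 : E) h1
    rw [hM] at h3
    exact h3
  have hφ0 : φ 0 = F u := by simp [hφ]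
  set g : E → E := hφ'.localInverse φ _ 0 with hg
  have hg' : HasStrictFDerivAt g
      (((ContinuousLinearEquiv.refl ℝ E : E ≃L[ℝ] E).symm : E →L[ℝ] E)) (F u) := by
    have := hφ'.to_localInverse
    rwa [hφ0] at this
  have hgr : ∀ᶠ y in 𝓝 (F u), φ (g y) = y := by
    have := hφ'.eventually_right_inverse
    rwa [hφ0] at this
  have hg0 : g (F u) = 0 := by
    have := hφ'.localInverse_apply_image
    rwa [hφ0] at this
  -- the curve
  have hline : HasDerivAt (fun s : ℝ => F u + s • ξ) ξ 0 := by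
    have := ((hasDerivAt_id (0 : ℝ)).smul_const ξ).const_add (F u)
    simpa using this
  have hy : HasDerivAt (fun s : ℝ => g (F u + s • ξ)) ξ 0 := by
    have h1 : HasFDerivAt g (((ContinuousLinearEquiv.refl ℝ E : E ≃L[ℝ] E).symm : E →L[ℝ] E))
        (F u + (0 : ℝ) • ξ) := by
      rw [zero_smul, add_zero]
      exact hg'.hasFDerivAt
    exact h1.comp_hasDerivAt (0 : ℝ) hline
  have hv : HasDerivAt (fun s : ℝ => u + M (g (F u + s • ξ))) (M ξ) 0 :=
    (M.hasFDerivAt.comp_hasDerivAt (0 : ℝ) hy).const_add u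
  have hψ := hv.norm_sq
  have hv0 : u + M (g (F u + (0 : ℝ) • ξ)) = u := by
    rw [zero_smul, add_zero, hg0, map_zero, add_zero]
  rw [hv0, hp, hMx] at hψ
  have hslope := (hasDerivAt_iff_tendsto_slope.1 hψ)
  have h1 : ∀ᶠ s in 𝓝[>] (0 : ℝ),
      slope (fun s : ℝ => ‖u + M (g (F u + s • ξ))‖ ^ 2) 0 s < 2 * p ξ + 2 * ε := by
    have h2 : 𝓝[>] (0 : ℝ) ≤ 𝓝[≠] 0 := nhdsWithin_mono _ fun x hx => ne_of_gt hx
    exact (hslope.mono_left h2).eventually_lt_const (by linarith)
  have h3 : ∀ᶠ s in 𝓝[>] (0 : ℝ), F (u + M (g (F u + s • ξ))) = F u + s • ξ := by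
    have h4 : Tendsto (fun s : ℝ => F u + s • ξ) (𝓝[>] 0) (𝓝 (F u)) := by
      have := hline.continuousAt.tendsto
      rw [zero_smul, add_zero] at this
      exact this.mono_left nhdsWithin_le_nhds
    exact h4.eventually hgr
  obtain ⟨s0, hs0, hsub⟩ := mem_nhdsGT_iff_exists_Ioo_subset.1 (h1.and h3)
  refine ⟨s0, hs0, fun s hs => ⟨u + M (g (F u + s • ξ)), (hsub hs).2, ?_⟩⟩
  have h5 := (hsub hs).1
  rw [slope_def_field, hv0, sub_zero, div_lt_iff₀ hs.1] at h5
  linarith

end Pool.Agent.CutLoci.H28
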