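import Pool.Agent.Lib.MP_0e3b4a_gt.Iface

set_option autoImplicit false

/-! # Module VINV: Volterra operators -/

namespace Pool.Agent.CutLoci.H28

open MeasureTheory Set Filter Topology

/-- the measure -/
noncomputable abbrev mu0 : Measure ℝ := (volume : Measure ℝ).restrict (Ioc (0 : ℝ) 1)

instance probInst : IsProbabilityMeasure mu0 := ⟨by simp⟩

theorem ctl_int {r : ℕ} (v : Ctl r) : Integrable (fun s => ‖v s‖) mu0 :=
  ((Lp.memLp v).integrable one_le_two).norm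

theorem ctl_norm_one_le {r : ℕ} (v : Ctl r) : ∫ s, ‖v s‖ ∂mu0 ≤ ‖v‖ := by
  have h1 : ∫ s, ‖v s‖ ∂mu0 = (eLpNorm v 1 mu0).toReal := by
    rw [eLpNorm_one_eq_lintegral_enorm, integral_norm_eq_lintegral_enorm
      (Lp.aestronglyMeasurable v)]
  rw [h1, Lp.norm_def]
  apply ENNReal.toReal_mono (Lp.eLpNorm_ne_top v)
  exact eLpNorm_le_eLpNorm_of_exponent_le one_le_two (Lp.aestronglyMeasurable v)

theorem prim_le {r : ℕ} (w : Ctl r) (K : ℝ) (k : ℕ) (h : ∀ᵐ t ∂mu0, ‖w t‖ ≤ K * t ^ k) :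
    ∀ t ∈ Ioc (0 : ℝ) 1, ∫ s in (0 : ℝ)..t, ‖w s‖ ≤ K * (t ^ (k + 1) / ((k : ℝ) + 1)) := by
  intro t ht
  have hsub : Ioc (0 : ℝ) t ⊆ Ioc 0 1 := Ioc_subset_Ioc_right ht.2
  have h1 : ∫ s in (0 : ℝ)..t, K * s ^ k = K * (t ^ (k + 1) / ((k : ℝ) + 1)) := by
    rw [intervalIntegral.integral_const_mul, integral_pow]
    simp
  rw [← h1, intervalIntegral.integral_of_le ht.1.le, intervalIntegral.integral_of_le ht.1.le]
  apply setIntegral_mono_ae_restrict
  · exact IntegrableOn.mono_set (ctl_int w) hsub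
  · exact (Continuous.integrableOn_Icc (by fun_prop)).mono_set Ioc_subset_Icc_self
  · exact ae_restrict_of_ae_restrict_of_subset hsub h

theorem vinv : VinvStatement := by
  intro r T M hT
  -- we may take `0 ≤ M`
  obtain ⟨M', hM', hT'⟩ : ∃ M' : ℝ, 0 ≤ M' ∧ ∀ v : Ctl r,
      ∀ᵐ t ∂mu0, ‖T v t‖ ≤ M' * ∫ s in (0 : ℝ)..t, ‖v s‖ := by
    refine ⟨|M|, abs_nonneg _, fun v => ?_⟩
    filter_upwards [hT v, ae_restrict_mem measurableSet_Ioc] with t ht ht'
    refine ht.trans (mul_le_mul_of_nonneg_right (le_abs_self M) ?_)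
    exact intervalIntegral.integral_nonneg ht'.1.le fun _ _ => norm_nonneg _
  have key : ∀ (n : ℕ) (v : Ctl r), ∀ᵐ t ∂mu0, ‖(T ^ (n + 1)) v t‖ ≤
      M' ^ (n + 1) / (n.factorial : ℝ) * ‖v‖ * t ^ n := by
    intro n
    induction n with
    | zero =>
      intro v
      filter_upwards [hT' v, ae_restrict_mem measurableSet_Ioc] with t ht ht'
      rw [zero_add, pow_one, pow_one, pow_zero, Nat.factorial_zero, Nat.cast_one, div_one, mul_one]
      refine ht.trans (mul_le_mul_of_nonneg_left ?_ hM')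
      refine le_trans ?_ (ctl_norm_one_le v)
      rw [intervalIntegral.integral_of_le ht'.1.le]
      exact setIntegral_mono_set (ctl_int v) (Eventually.of_forall fun _ => norm_nonneg _)
        (Eventually.of_forall (Ioc_subset_Ioc_right ht'.2))
    | succ n ih =>
      intro v
      have h1 := prim_le ((T ^ (n + 1)) v) _ n (ih v)
      filter_upwards [hT' ((T ^ (n + 1)) v), ae_restrict_mem measurableSet_Ioc] with t ht ht'
      have h2 : (T ^ (n + 1 + 1)) v = T ((T ^ (n + 1)) v) := by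
        rw [pow_succ' T (n + 1)]; rfl
      rw [h2]
      refine ht.trans ((mul_le_mul_of_nonneg_left (h1 t ht') hM').trans (le_of_eq ?_))
      rw [Nat.factorial_succ]
      push_cast
      field_simp
      ring
  have key2 : ∀ n : ℕ, ‖T ^ (n + 1)‖ ≤ M' ^ (n + 1) / (n.factorial : ℝ) := by
    intro n
    have h0 : 0 ≤ M' ^ (n + 1) / (n.factorial : ℝ) := by positivity
    refine ContinuousLinearMap.opNorm_le_bound _ h0 fun v => ?_
    have h1 : 0 ≤ M' ^ (n + 1) / (n.factorial : ℝ) * ‖v‖ := mul_nonneg h0 (norm_nonneg _)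
    have h2 := Lp.norm_le_of_ae_bound (f := (T ^ (n + 1)) v) h1 (by
      filter_upwards [key n v, ae_restrict_mem measurableSet_Ioc] with t ht ht'
      refine ht.trans ?_
      have h3 : t ^ n ≤ 1 := pow_le_one₀ ht'.1.le ht'.2
      calc M' ^ (n + 1) / (n.factorial : ℝ) * ‖v‖ * t ^ n
          ≤ M' ^ (n + 1) / (n.factorial : ℝ) * ‖v‖ * 1 := mul_le_mul_of_nonneg_left h3 h1
        _ = _ := mul_one _)
    refine h2.trans (le_of_eq ?_)
    have h4 : measureUnivNNReal mu0 = 1 := by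
      simp [measureUnivNNReal]
    rw [h4]
    simp
  -- some power has norm less than one
  obtain ⟨n, hn⟩ : ∃ n : ℕ, M' ^ (n + 1) / (n.factorial : ℝ) < 1 := by
    have h1 : Tendsto (fun n : ℕ => M' * (M' ^ n / (n.factorial : ℝ))) atTop (𝓝 (M' * 0)) :=
      (FloorSemiring.tendsto_pow_div_factorial_atTop M').const_mul M'
    rw [mul_zero] at h1
    obtain ⟨n, hn⟩ := ((tendsto_order.1 h1).2 1 one_pos).exists
    refine ⟨n, ?_⟩
    rw [pow_succ']
    rwa [mul_div_assoc]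
  have hu : IsUnit (1 - T ^ (n + 1)) :=
    isUnit_one_sub_of_norm_lt_one ((key2 n).trans_lt hn)
  have hu2 : IsUnit (1 - T) := by
    obtain ⟨U, hU⟩ := hu
    have h1 : (1 - T) * ((∑ i ∈ Finset.range (n + 1), T ^ i) * (↑U⁻¹ : Ctl r →L[ℝ] Ctl r)) = 1 := by
      rw [← mul_assoc, mul_neg_geom_sum, ← hU, Units.mul_inv]
    have h2 : ((↑U⁻¹ : Ctl r →L[ℝ] Ctl r) * ∑ i ∈ Finset.range (n + 1), T ^ i) * (1 - T) = 1 := by
      rw [mul_assoc, geom_sum_mul_neg, ← hU, Units.inv_mul]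
    have h3 : (↑U⁻¹ : Ctl r →L[ℝ] Ctl r) * ∑ i ∈ Finset.range (n + 1), T ^ i =
        (∑ i ∈ Finset.range (n + 1), T ^ i) * (↑U⁻¹ : Ctl r →L[ℝ] Ctl r) :=
      left_inv_eq_right_inv h2 h1
    exact ⟨⟨1 - T, _, h1, by rw [← h3]; exact h2⟩, rfl⟩
  have h5 := (ContinuousLinearMap.isUnit_iff_bijective (f := 1 - T)).1 hu2
  exact h5

end Pool.Agent.CutLoci.H28
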